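import Pool.Agent.helper41.Sch.Defs
import Pool.Agent.helper95.Sch.BI
import Pool.Agent.helper61.Sch.PO1
import Pool.Agent.helper79.Sch.SP1
import Pool.Agent.helper79.Sch.WA
import Pool.Agent.helper14.Sch.GA

open scoped Pointwise ContDiff
open MeasureTheory Set Filter Topology

namespace Pool.Agent.helper41.Sch

/-- Huber's function: the supremum of `s t - s^2/2` over `|s| ≤ 1`. -/
private noncomputable def CA_q (t : ℝ) : ℝ := max (-1) (min 1 t) * t - (max (-1) (min 1 t)) ^ 2 / 2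

private theorem CA_clamp (t : ℝ) : -1 ≤ max (-1) (min 1 t) ∧ max (-1) (min 1 t) ≤ 1 :=
  ⟨le_max_left _ _, max_le (by norm_num) (min_le_left _ _)⟩

private theorem CA_q_ge (s t : ℝ) (h1 : -1 ≤ s) (h2 : s ≤ 1) : s * t - s ^ 2 / 2 ≤ CA_q t := by
  unfold CA_q
  rcases le_total t (-1) with h | h
  · have e1 : max (-1) (min 1 t) = -1 := by
      rw [min_eq_right (by linarith), max_eq_left h]
    rw [e1]; nlinarith
  rcases le_total t 1 with h' | h'
  · have e1 : max (-1) (min 1 t) = t := by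
      rw [min_eq_right h', max_eq_right h]
    rw [e1]; nlinarith [sq_nonneg (s - t)]
  · have e1 : max (-1) (min 1 t) = 1 := by
      rw [min_eq_left h', max_eq_right (by norm_num)]
    rw [e1]; nlinarith

private theorem CA_q_small {t : ℝ} (h : |t| ≤ 1) : CA_q t = t ^ 2 / 2 := by
  obtain ⟨h1, h2⟩ := abs_le.1 h
  unfold CA_q
  rw [min_eq_right h2, max_eq_right h1]; ring

private theorem CA_q_le (t : ℝ) : CA_q t ≤ |t| := by
  unfold CA_q
  obtain ⟨h1, h2⟩ := CA_clamp t
  set s := max (-1) (min 1 t)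
  have h3 : s * t ≤ |t| := by
    have h4 : s * t ≤ |s * t| := le_abs_self _
    rw [abs_mul] at h4
    have h5 : |s| ≤ 1 := abs_le.2 ⟨h1, h2⟩
    nlinarith [abs_nonneg t, abs_nonneg s]
  nlinarith [sq_nonneg s]

private theorem CA_q_lip (x y : ℝ) : CA_q x - CA_q y ≤ |x - y| := by
  obtain ⟨h1, h2⟩ := CA_clamp x
  have h3 := CA_q_ge _ y h1 h2
  unfold CA_q at h3 ⊢
  set s := max (-1) (min 1 x)
  have h5 : |s| ≤ 1 := abs_le.2 ⟨h1, h2⟩
  have h4 : s * (x - y) ≤ |s * (x - y)| := le_abs_self _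
  rw [abs_mul] at h4
  nlinarith [abs_nonneg (x - y), abs_nonneg s]

/-- The convex function used near the origin. -/
private noncomputable def CA_Q (x : P) : ℝ := CA_q x.1 + CA_q x.2

private theorem CA_Q_lip : Lip CA_Q := by
  refine ⟨2, LipschitzWith.of_dist_le_mul fun x y => ?_⟩
  have h1 : |x.1 - y.1| ≤ dist x y := by
    rw [← Real.dist_eq, Prod.dist_eq]; exact le_max_left _ _
  have h2 : |x.2 - y.2| ≤ dist x y := by
    rw [← Real.dist_eq, Prod.dist_eq]; exact le_max_right _ _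
  rw [Real.dist_eq, abs_le]
  have a1 := CA_q_lip x.1 y.1
  have a2 := CA_q_lip x.2 y.2
  have a3 := CA_q_lip y.1 x.1
  have a4 := CA_q_lip y.2 x.2
  rw [abs_sub_comm] at a3 a4
  unfold CA_Q
  have : ((2 : NNReal) : ℝ) = 2 := rfl
  rw [this]
  constructor <;> linarith

private theorem CA_q_convex (x y a b : ℝ) (ha : 0 ≤ a) (hb : 0 ≤ b) (hab : a + b = 1) :
    CA_q (a * x + b * y) ≤ a * CA_q x + b * CA_q y := by
  obtain ⟨h1, h2⟩ := CA_clamp (a * x + b * y)
  have h3 := CA_q_ge _ x h1 h2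
  have h4 := CA_q_ge _ y h1 h2
  have h5 : CA_q (a * x + b * y) = max (-1) (min 1 (a * x + b * y)) * (a * x + b * y)
    - (max (-1) (min 1 (a * x + b * y))) ^ 2 / 2 := rfl
  rw [h5]
  set s := max (-1) (min 1 (a * x + b * y))
  have hb' : b = 1 - a := by linarith
  subst hb'
  nlinarith [mul_le_mul_of_nonneg_left h3 ha, mul_le_mul_of_nonneg_left h4 hb]

private theorem CA_Q_convex : ConvexOn ℝ univ CA_Q := by
  refine ⟨convex_univ, fun x _ y _ a b ha hb hab => ?_⟩
  have h1 := CA_q_convex x.1 y.1 a b ha hb hab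
  have h2 := CA_q_convex x.2 y.2 a b ha hb hab
  simp only [CA_Q, Prod.fst_add, Prod.snd_add, Prod.smul_fst, Prod.smul_snd, smul_eq_mul]
  linarith

private theorem CA_lip_add {f f' : P → ℝ} (hf : Lip f) (hf' : Lip f') :
    Lip (fun x => f x + f' x) := by
  obtain ⟨K, hK⟩ := hf
  obtain ⟨K', hK'⟩ := hf'
  exact ⟨_, hK.add hK'⟩

private theorem CA_lip_smul {f : P → ℝ} (hf : Lip f) (c : ℝ) :
    Lip (fun x => c * f x) := by
  obtain ⟨K, hK⟩ := hf
  refine ⟨‖c‖₊ * K, LipschitzWith.of_dist_le_mul fun x y => ?_⟩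
  have := hK.dist_le_mul x y
  rw [Real.dist_eq] at this ⊢
  rw [← mul_sub, abs_mul]
  push_cast
  rw [Real.norm_eq_abs, mul_assoc]
  exact mul_le_mul_of_nonneg_left this (abs_nonneg c)

private theorem CA_lip_aff (a : P) (c : ℝ) : Lip (fun x => dot a x + c) := by
  refine ⟨‖a.1‖₊ + ‖a.2‖₊, LipschitzWith.of_dist_le_mul fun x y => ?_⟩
  have h1 : |x.1 - y.1| ≤ dist x y := by
    rw [← Real.dist_eq, Prod.dist_eq]; exact le_max_left _ _
  have h2 : |x.2 - y.2| ≤ dist x y := by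
    rw [← Real.dist_eq, Prod.dist_eq]; exact le_max_right _ _
  rw [Real.dist_eq]
  have e : dot a x + c - (dot a y + c) = a.1 * (x.1 - y.1) + a.2 * (x.2 - y.2) := by
    unfold dot; ring
  rw [e]
  refine (abs_add_le _ _).trans ?_
  rw [abs_mul, abs_mul]
  push_cast
  rw [Real.norm_eq_abs, Real.norm_eq_abs, add_mul]
  exact add_le_add (mul_le_mul_of_nonneg_left h1 (abs_nonneg _))
    (mul_le_mul_of_nonneg_left h2 (abs_nonneg _))

private theorem CA_conv_aff (a : P) (c : ℝ) : ConvexOn ℝ univ (fun x => dot a x + c) := by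
  refine ⟨convex_univ, fun x _ y _ s t hs ht hst => le_of_eq ?_⟩
  simp only [dot, Prod.fst_add, Prod.snd_add, Prod.smul_fst, Prod.smul_snd, smul_eq_mul]
  have : t = 1 - s := by linarith
  subst this
  ring

theorem case_point {f g : P → ℝ} (hf : LC f) (hg : LC g) {r : ℝ} (hr : 0 < r)
    (hB : ∀ φ, Test φ → tsupport φ ⊆ Metric.ball 0 r → B φ f g = 0)
    (h0 : ∀ v, v ≠ 0 → ¬ FlatAt f 0 v) (v : P) : FlatAt g 0 v := by
  obtain ⟨a, c, m, hm, hc, hcut⟩ := exists_cut hf h0 (r := r / 2) (by linarith)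
  -- the function `w`
  set w : P → ℝ := fun x => (dot a x + c) + (m / 2) * CA_Q x with hw
  have haffL : Lip (fun x => dot a x + c) := CA_lip_aff a c
  have hQL : Lip (fun x => (m / 2) * CA_Q x) := CA_lip_smul CA_Q_lip _
  have hwL : Lip w := CA_lip_add haffL hQL
  have hwC : ConvexOn ℝ univ w :=
    (CA_conv_aff a c).add (CA_Q_convex.smul (by positivity : (0 : ℝ) ≤ m / 2))
  have hwle : ∀ y : P, r / 2 ≤ ‖y‖ → w y ≤ f y := by
    intro y hy
    refine le_trans ?_ (hcut y hy)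
    have h1 : |y.1| ≤ ‖y‖ := by
      rw [← Real.norm_eq_abs]; exact norm_fst_le y
    have h2 : |y.2| ≤ ‖y‖ := by
      rw [← Real.norm_eq_abs]; exact norm_snd_le y
    have h3 := CA_q_le y.1
    have h4 := CA_q_le y.2
    simp only [hw, CA_Q]
    nlinarith
  -- the function `f₂`
  set f₂ : P → ℝ := fun x => max (f x) (w x) with hf₂
  have hf₂L : Lip f₂ := by
    obtain ⟨K, hK⟩ := hf.2
    obtain ⟨K', hK'⟩ := hwL
    exact ⟨_, hK.max hK'⟩
  have hf₂C : ConvexOn ℝ univ f₂ := hf.1.sup hwC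
  have hoff : ∀ y : P, r / 2 ≤ ‖y‖ → f₂ y = f y := fun y hy => max_eq_left (hwle y hy)
  -- the radius where `w > f`
  have hcont : Continuous fun x => w x - f x := by
    obtain ⟨K, hK⟩ := hf.2
    obtain ⟨K', hK'⟩ := hwL
    exact hK'.continuous.sub hK.continuous
  have hw0 : 0 < w 0 - f 0 := by
    have e : w 0 = c := by
      have e1 : CA_Q 0 = 0 := by
        simp only [CA_Q, Prod.fst_zero, Prod.snd_zero]
        rw [CA_q_small (by simp)]; norm_num
      simp only [hw, e1, dot]; simp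
    rw [e]; linarith
  obtain ⟨δ₀, hδ₀, hδ⟩ := Metric.eventually_nhds_iff_ball.1
    ((hcont.tendsto 0).eventually (lt_mem_nhds hw0))
  set δ := min δ₀ (min (r / 2) 1) with hδdef
  have hδpos : 0 < δ := lt_min hδ₀ (lt_min (by linarith) one_pos)
  -- the plateau function
  let b : ContDiffBump (0 : P) := ⟨3 * r / 4, 7 * r / 8, by linarith, by linarith⟩
  have hbC : ContDiff ℝ ∞ (b : P → ℝ) := b.contDiff
  have hbCc : Cc (b : P → ℝ) := ⟨hbC, b.hasCompactSupport⟩
  have hbT : Test (b : P → ℝ) := ⟨hbCc, fun x => b.nonneg⟩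
  have hbsup : tsupport (b : P → ℝ) ⊆ Metric.ball 0 r := by
    rw [b.tsupport_eq]
    exact Metric.closedBall_subset_ball (by show 7 * r / 8 < r; linarith)
  have hb1 : ∀ x ∈ Metric.ball (0 : P) (3 * r / 4), b x = 1 := fun x hx =>
    b.one_of_mem_closedBall (Metric.ball_subset_closedBall hx)
  have hgL := hg.2
  -- `B φ f₂ g = 0`
  have hkey : B b f₂ g = 0 := by
    have hdL : Lip (fun x => f₂ x + (-1) * f x) := CA_lip_add hf₂L (CA_lip_smul hf.2 _)
    have e1 : B b (fun x => f₂ x + (-1) * f x) g = 0 := by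
      refine B_plateau (Metric.ball (0 : P) (3 * r / 4)) Metric.isOpen_ball ?_ hb1
      refine (closure_minimal ?_ Metric.isClosed_closedBall :
        _ ⊆ Metric.closedBall (0 : P) (r / 2)).trans (Metric.closedBall_subset_ball (by linarith))
      intro x hx
      rw [mem_closedBall_zero_iff]
      by_contra hcon
      exact hx (by
        show f₂ x + (-1) * f x = 0
        rw [hoff x (not_le.1 hcon).le]; ring)
    have e2 := B_add_left hbCc hf₂L (CA_lip_smul hf.2 (-1)) hgL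
    rw [e1, B_smul_left hbCc hf.2 hgL, hB b hbT hbsup] at e2
    linarith
  refine flat_of_harmonic hg hδpos (fun ψ hψ hψs => ?_) v
  -- bound of `ψ`
  obtain ⟨M, hM⟩ := hψ.1.2.exists_bound_of_continuous hψ.1.1.continuous
  set M' := |M| + 1 with hM'
  have hM'pos : 0 < M' := by positivity
  have hψle : ∀ x, ψ x ≤ M' := fun x => by
    have h1 := hM x
    rw [Real.norm_eq_abs] at h1
    linarith [le_abs_self (ψ x), le_abs_self M]
  have hδr : δ ≤ r / 2 := (min_le_right _ _).trans (min_le_left _ _)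
  have hδ1 : δ ≤ 1 := (min_le_right _ _).trans (min_le_right _ _)
  have hψCc := hψ.1
  have hs : Cc (fun x => M'⁻¹ * ψ x) :=
    ⟨contDiff_const.mul hψCc.1, hψCc.2.mul_left⟩
  have hs2 : Cc (fun x => (-M'⁻¹) * ψ x) :=
    ⟨contDiff_const.mul hψCc.1, hψCc.2.mul_left⟩
  have hT1 : Test (fun x => M'⁻¹ * ψ x) := ⟨hs, fun x => mul_nonneg (by positivity) (hψ.2 x)⟩
  have hT2 : Test (fun x => b x + (-M'⁻¹) * ψ x) := by
    refine ⟨⟨hbC.add hs2.1, hbCc.2.add hs2.2⟩, fun x => ?_⟩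
    show 0 ≤ b x + (-M'⁻¹) * ψ x
    by_cases hx : x ∈ Metric.ball (0 : P) δ
    · rw [hb1 x (Metric.ball_subset_ball (by linarith) hx)]
      have h1 : M'⁻¹ * ψ x ≤ 1 := by
        rw [inv_mul_le_iff₀ hM'pos, mul_one]; exact hψle x
      linarith
    · have h1 : ψ x = 0 := by
        by_contra hne
        exact hx (hψs (subset_tsupport _ hne))
      rw [h1, mul_zero, add_zero]
      exact b.nonneg
  have p1 : 0 ≤ B (fun x => M'⁻¹ * ψ x) f₂ g :=
    B_nonneg hT1 hf₂L hgL univ isOpen_univ convex_univ (subset_univ _) hf₂C hg.1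
  have p2 : 0 ≤ B (fun x => b x + (-M'⁻¹) * ψ x) f₂ g :=
    B_nonneg hT2 hf₂L hgL univ isOpen_univ convex_univ (subset_univ _) hf₂C hg.1
  rw [B_add_test hbCc hs2 hf₂L hgL, hkey, B_smul_test hψCc hf₂L hgL] at p2
  rw [B_smul_test hψCc hf₂L hgL] at p1
  have h3 : M'⁻¹ * B ψ f₂ g = 0 := by linarith
  have h4 : B ψ f₂ g = 0 := by
    rcases mul_eq_zero.1 h3 with h | h
    · exact absurd h (by positivity)
    · exact h
  -- evaluation
  have h5 : B ψ f₂ g = B ψ w g := by
    refine B_congr_left (Metric.ball (0 : P) δ) Metric.isOpen_ball hψs fun x hx => ?_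
    have := hδ x (Metric.ball_subset_ball (min_le_left _ _) hx)
    exact max_eq_right (by linarith)
  have h6 : B ψ w g = B ψ (fun x => dot a x + c) g + B ψ (fun x => (m / 2) * CA_Q x) g :=
    B_add_left hψCc haffL hQL hgL
  have h7 : B ψ (fun x => dot a x + c) g = 0 :=
    B_affine hψCc hgL a c univ isOpen_univ (subset_univ _) _ (fun _ _ => rfl)
  have h8 : B ψ (fun x => (m / 2) * CA_Q x) g = (m / 2) * B ψ CA_Q g :=
    B_smul_left hψCc CA_Q_lip hgL _
  have h9 : B ψ CA_Q g = (1 / 2) * ∫ x, g x * (d1 (d1 ψ) x + d2 (d2 ψ) x) := by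
    refine B_quad hψCc hgL (Metric.ball (0 : P) δ) Metric.isOpen_ball hψs fun x hx => ?_
    have hx' : ‖x‖ < δ := mem_ball_zero_iff.1 hx
    have a1 : |x.1| ≤ ‖x‖ := by
      rw [← Real.norm_eq_abs]; exact norm_fst_le x
    have a2 : |x.2| ≤ ‖x‖ := by
      rw [← Real.norm_eq_abs]; exact norm_snd_le x
    rw [CA_Q, CA_q_small (by linarith), CA_q_small (by linarith)]
    ring
  rw [h5, h6, h7, h8, h9] at h4
  have h10 : (m / 2) * (1 / 2) ≠ 0 := by positivity
  have h11 : (m / 2) * (1 / 2) * ∫ x, g x * (d1 (d1 ψ) x + d2 (d2 ψ) x) = 0 := by linarith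
  rcases mul_eq_zero.1 h11 with h | h
  · exact absurd h h10
  · exact h

end Pool.Agent.helper41.Sch
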